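import Pool.Agent.Z15.Q.Stm

set_option autoImplicit false

namespace Pool.Agent.T2h69.Q15

open Module TensorProduct Pool.Agent.Z15.Q Pool.Agent.Y90

lemma exists_lift {B C : Type} [Ring B] [Algebra ℚ B] [Ring C] [Algebra ℝ C] (g : B →+* C)
    (hg : ∀ q : ℚ, g (algebraMap ℚ B q) = algebraMap ℝ C (q : ℝ)) :
    ∃ F : ℝ ⊗[ℚ] B →ₐ[ℝ] C, ∀ x b, F (x ⊗ₜ b) = x • g b := by
  let _ : Algebra ℚ C := Algebra.compHom C (algebraMap ℚ ℝ)
  have : IsScalarTower ℚ ℝ C := IsScalarTower.of_algebraMap_eq fun x => rfl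
  let g' : B →ₐ[ℚ] C := { g with commutes' := fun q => hg q }
  have hc : ∀ (x : ℝ) (y : B), Commute (Algebra.ofId ℝ C x) (g' y) := fun x y =>
    Algebra.commutes x (g' y)
  refine ⟨Algebra.TensorProduct.lift (Algebra.ofId ℝ C) g' hc, ?_⟩
  intro x b
  rw [Algebra.TensorProduct.lift_tmul, Algebra.smul_def]
  rfl

section
variable {X : AV} {E : X.H → X.H → ℚ} {R : Subalgebra ℚ (Module.End ℚ X.H)}

/-- two additive maps that are real linear and agree on periods are equal -/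
lemma ext_per {ρ ρ' : X.T →ₗ[ℂ] X.T} (h : ∀ v, ρ (X.per v) = ρ' (X.per v)) : ρ = ρ' := by
  apply LinearMap.ext
  intro u
  have hu : u ∈ Submodule.span ℝ (Set.range X.per) := by rw [X.span]; trivial
  induction hu using Submodule.span_induction with
  | mem x hx => obtain ⟨v, rfl⟩ := hx; exact h v
  | zero => rw [map_zero, map_zero]
  | add x y _ _ hx hy => rw [map_add, map_add, hx, hy]
  | smul c x _ hx =>
    have e1 : ρ (c • x) = c • ρ x := by
      rw [← Complex.coe_smul, map_smul, Complex.coe_smul]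
    have e2 : ρ' (c • x) = c • ρ' x := by
      rw [← Complex.coe_smul, map_smul, Complex.coe_smul]
    rw [e1, e2, hx]

lemma adj (Ψ : X.T → X.T → ℂ) (h1 : ∀ u', IsLinearMap ℂ fun u => Ψ u u')
    (h2 : ∀ u u', Ψ u' u = starRingEnd ℂ (Ψ u u'))
    (h4 : ∀ v w, (Ψ (X.per v) (X.per w)).im = E v w) {r r' : Module.End ℚ X.H}
    {ρ ρ' : X.T →ₗ[ℂ] X.T} (hr : ∀ v, ρ (X.per v) = X.per (r v))
    (hr' : ∀ v, ρ' (X.per v) = X.per (r' v)) (hE : ∀ v w, E (r v) w = E v (r' w)) (u u' : X.T) :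
    Ψ (ρ u) u' = Ψ u (ρ' u') := by
  have padd : ∀ u v w, Ψ (u + v) w = Ψ u w + Ψ v w := fun u v w => (h1 w).map_add u v
  have psm : ∀ (c : ℂ) u w, Ψ (c • u) w = c * Ψ u w := fun c u w => by
    have := (h1 w).map_smul c u
    simpa using this
  have p0 : ∀ w, Ψ 0 w = 0 := fun w => (h1 w).map_zero
  have padd' : ∀ u v w, Ψ w (u + v) = Ψ w u + Ψ w v := fun u v w => by
    rw [h2 _ w, padd, map_add, ← h2, ← h2]
  have psm' : ∀ (c : ℂ) u w, Ψ w (c • u) = starRingEnd ℂ c * Ψ w u := fun c u w => by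
    rw [h2 _ w, psm, map_mul, ← h2]
  have p0' : ∀ w, Ψ w 0 = 0 := fun w => by rw [h2 0 w, p0, map_zero]
  -- imaginary parts agree
  have him : ∀ u u', (Ψ (ρ u) u').im = (Ψ u (ρ' u')).im := by
    intro u u'
    have hu : u ∈ Submodule.span ℝ (Set.range X.per) := by rw [X.span]; trivial
    have hu' : u' ∈ Submodule.span ℝ (Set.range X.per) := by rw [X.span]; trivial
    induction hu using Submodule.span_induction with
    | mem x hx =>
      obtain ⟨v, rfl⟩ := hx
      induction hu' using Submodule.span_induction with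
      | mem x hx =>
        obtain ⟨w, rfl⟩ := hx
        rw [hr, hr', h4, h4, hE]
      | zero => rw [map_zero, p0', p0']
      | add x y _ _ hx hy => rw [map_add, padd', padd', Complex.add_im, Complex.add_im, hx, hy]
      | smul c x _ hx =>
        rw [← Complex.coe_smul, map_smul, psm', psm', Complex.conj_ofReal, Complex.im_ofReal_mul,
          Complex.im_ofReal_mul, hx]
    | zero => rw [map_zero, p0, p0]
    | add x y _ _ hx hy => rw [map_add, padd, padd, Complex.add_im, Complex.add_im, hx, hy]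
    | smul c x _ hx =>
      rw [← Complex.coe_smul, map_smul, psm, psm, Complex.im_ofReal_mul, Complex.im_ofReal_mul, hx]
  have hre : ∀ a b, (Ψ a b).re = (Ψ (Complex.I • a) b).im := fun a b => by
    rw [psm, Complex.mul_im]; simp
  apply Complex.ext
  · rw [hre, hre, ← him, map_smul]
  · exact him u u'

end

theorem t_Q_ADPi : Q_ADPi := by
  intro hINV hBAS X E R hRT
  obtain ⟨⟨Ψ, h1, h2, h3, h4⟩, hom, ros, ⟨m, n, ⟨e0⟩⟩⟩ := hRT
  have hch : ∀ r : R, ∃ ρ : X.T →ₗ[ℂ] X.T, ∀ v, ρ (X.per v) = X.per (r.1 v) :=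
    fun r => hom r.1 r.2
  choose ρ hρ using hch
  -- the ring homomorphism
  let g : R →+* Module.End ℂ X.T :=
    { toFun := ρ
      map_one' := ext_per fun v => by rw [hρ]; rfl
      map_mul' := fun r s => ext_per fun v => by
        rw [hρ, Module.End.mul_apply, hρ, hρ]; rfl
      map_zero' := ext_per fun v => by rw [hρ, LinearMap.zero_apply]; exact map_zero X.per
      map_add' := fun r s => ext_per fun v => by
        rw [hρ, LinearMap.add_apply, hρ, hρ, ← map_add]; rfl }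
  have hperq : ∀ (q : ℚ) (v : X.H), X.per (q • v) = (q : ℝ) • X.per v := by
    intro q v
    have hden : (q.den : ℝ) ≠ 0 := by exact_mod_cast q.den_nz
    have e1 : (q.den : ℕ) • X.per (q • v) = (q.num : ℤ) • X.per v := by
      rw [← map_nsmul, ← map_zsmul]
      congr 1
      rw [← Nat.cast_smul_eq_nsmul ℚ, smul_smul, ← Int.cast_smul_eq_zsmul ℚ, Rat.den_mul_eq_num]
    have e2 : (q.den : ℝ) • X.per (q • v) = (q.den : ℝ) • ((q : ℝ) • X.per v) := by
      rw [Nat.cast_smul_eq_nsmul, e1, smul_smul, ← Int.cast_smul_eq_zsmul ℝ]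
      congr 1
      exact_mod_cast (Rat.den_mul_eq_num q).symm
    have := congrArg (fun x => (q.den : ℝ)⁻¹ • x) e2
    simpa [smul_smul, inv_mul_cancel₀ hden, ← mul_assoc] using this
  have hgq : ∀ q : ℚ, g (algebraMap ℚ R q) = algebraMap ℝ (Module.End ℂ X.T) (q : ℝ) := by
    intro q
    apply ext_per
    intro v
    change ρ _ _ = _
    rw [hρ, Module.algebraMap_end_apply, ← hperq]
    rfl
  obtain ⟨F, hF⟩ := exists_lift g hgq
  let θ0 : ((j : Fin m) → Matrix (Fin (n j)) (Fin (n j)) ℝ) →ₐ[ℝ] Module.End ℂ X.T :=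
    F.comp e0.symm.toAlgHom
  have hθ0 : ∀ z, θ0 (e0 z) = F z := fun z => by
    change F (e0.symm (e0 z)) = F z
    rw [e0.symm_apply_apply]
  have padd : ∀ u v w, Ψ (u + v) w = Ψ u w + Ψ v w := fun u v w => (h1 w).map_add u v
  have psm : ∀ (c : ℂ) u w, Ψ (c • u) w = c * Ψ u w := fun c u w => by
    have := (h1 w).map_smul c u
    simpa using this
  have p0 : ∀ w, Ψ 0 w = 0 := fun w => (h1 w).map_zero
  have padd' : ∀ u v w, Ψ w (u + v) = Ψ w u + Ψ w v := fun u v w => by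
    rw [h2 _ w, padd, map_add, ← h2, ← h2]
  have psm' : ∀ (c : ℂ) u w, Ψ w (c • u) = starRingEnd ℂ c * Ψ w u := fun c u w => by
    rw [h2 _ w, psm, map_mul, ← h2]
  have p0' : ∀ w, Ψ w 0 = 0 := fun w => by rw [h2 0 w, p0, map_zero]
  have hadj : ∀ z : ℝ ⊗[ℚ] R, ∃ z' : ℝ ⊗[ℚ] R, ∀ u u', Ψ (F z u) u' = Ψ u (F z' u') := by
    intro z
    induction z using TensorProduct.induction_on with
    | zero => exact ⟨0, fun u u' => by rw [map_zero, LinearMap.zero_apply, LinearMap.zero_apply, p0, p0']⟩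
    | tmul x r =>
      obtain ⟨r', hr', hE⟩ := ros r.1 r.2
      refine ⟨x ⊗ₜ ⟨r', hr'⟩, fun u u' => ?_⟩
      rw [hF, hF, LinearMap.smul_apply, LinearMap.smul_apply, ← Complex.coe_smul, psm,
        ← Complex.coe_smul, psm', Complex.conj_ofReal]
      congr 1
      exact adj Ψ h1 h2 h4 (hρ r) (hρ ⟨r', hr'⟩) hE u u'
    | add z z₂ hz hz₂ =>
      obtain ⟨w, hw⟩ := hz
      obtain ⟨w₂, hw₂⟩ := hz₂
      exact ⟨w + w₂, fun u u' => by
        rw [map_add, map_add, LinearMap.add_apply, LinearMap.add_apply, padd, padd', hw, hw₂]⟩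
  have hadj0 : ∀ a, ∃ a', ∀ u u', Ψ (θ0 a u) u' = Ψ u (θ0 a' u') := by
    intro a
    obtain ⟨z', hz'⟩ := hadj (e0.symm a)
    refine ⟨e0 z', fun u u' => ?_⟩
    rw [hθ0]
    exact hz' u u'
  obtain ⟨e, he⟩ := hINV m n X.T Ψ h1 h2 h3 θ0 hadj0
  obtain ⟨K, hK, t, ht1, ht2⟩ := hBAS m n X.T Ψ h1 h2 h3 (θ0.comp e.toAlgHom) he
  refine ⟨Fin m, K, fun j => Fin (n j), inferInstance, hK, fun j => inferInstance, t,
    fun r => e.symm (e0 (1 ⊗ₜ r)), ?_, ?_, ?_⟩
  · intro v w
    rw [← ht1, h4]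
  · intro r v j k α
    have := ht2 (e.symm (e0 (1 ⊗ₜ r))) (X.per v) j k α
    rw [← this]
    have e3 : (θ0.comp e.toAlgHom) (e.symm (e0 (1 ⊗ₜ r))) = ρ r := by
      change θ0 (e (e.symm (e0 (1 ⊗ₜ r)))) = ρ r
      rw [e.apply_symm_apply, hθ0, hF, one_smul]
      rfl
    rw [e3, hρ]
  · intro N
    have key : ∀ z : ℝ ⊗[ℚ] R, e.symm (e0 z) ∈
        Submodule.span ℝ (Set.range fun r : R => e.symm (e0 (1 ⊗ₜ r))) := by
      intro z
      induction z using TensorProduct.induction_on with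
      | zero => rw [map_zero, map_zero]; exact Submodule.zero_mem _
      | tmul x r =>
        have : (x ⊗ₜ r : ℝ ⊗[ℚ] R) = x • (1 ⊗ₜ r) := by
          rw [TensorProduct.smul_tmul', smul_eq_mul, mul_one]
        rw [this, map_smul, map_smul]
        exact Submodule.smul_mem _ _ (Submodule.subset_span ⟨r, rfl⟩)
      | add z z₂ hz hz₂ => rw [map_add, map_add]; exact Submodule.add_mem _ hz hz₂
    have := key (e0.symm (e N))
    rwa [e0.apply_symm_apply, e.symm_apply_apply] at this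

end Pool.Agent.T2h69.Q15
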