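import Pool.Agent.Z15.Q.Stm

set_option autoImplicit false

namespace Pool.Agent.T2h69.Q15

open Module Pool.Agent.Z15.Q

section
variable {T : Type} [AddCommGroup T] [Module ℂ T] (Ψ : T → T → ℂ)

lemma psi_add_left (h1 : ∀ u', IsLinearMap ℂ fun u => Ψ u u') (u v w : T) :
    Ψ (u + v) w = Ψ u w + Ψ v w := (h1 w).map_add u v

lemma psi_smul_left (h1 : ∀ u', IsLinearMap ℂ fun u => Ψ u u') (c : ℂ) (u w : T) :
    Ψ (c • u) w = c * Ψ u w := by
  have := (h1 w).map_smul c u
  simpa using this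

lemma psi_zero_left (h1 : ∀ u', IsLinearMap ℂ fun u => Ψ u u') (w : T) : Ψ 0 w = 0 :=
  (h1 w).map_zero

lemma psi_sum_left (h1 : ∀ u', IsLinearMap ℂ fun u => Ψ u u') {ι : Type} (s : Finset ι)
    (f : ι → T) (w : T) : Ψ (∑ i ∈ s, f i) w = ∑ i ∈ s, Ψ (f i) w := by
  exact map_sum ((h1 w).mk' _) f s

lemma psi_zero_right (h1 : ∀ u', IsLinearMap ℂ fun u => Ψ u u')
    (h2 : ∀ u u', Ψ u' u = starRingEnd ℂ (Ψ u u')) (w : T) : Ψ w 0 = 0 := by
  rw [h2 0 w, psi_zero_left Ψ h1, map_zero]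

lemma psi_sum_right (h1 : ∀ u', IsLinearMap ℂ fun u => Ψ u u')
    (h2 : ∀ u u', Ψ u' u = starRingEnd ℂ (Ψ u u')) {ι : Type} (s : Finset ι)
    (f : ι → T) (w : T) : Ψ w (∑ i ∈ s, f i) = ∑ i ∈ s, Ψ w (f i) := by
  rw [h2 _ w, psi_sum_left Ψ h1, map_sum]
  exact Finset.sum_congr rfl fun i _ => (h2 (f i) w).symm

lemma psi_smul_right (h1 : ∀ u', IsLinearMap ℂ fun u => Ψ u u')
    (h2 : ∀ u u', Ψ u' u = starRingEnd ℂ (Ψ u u')) (c : ℂ) (u w : T) :
    Ψ w (c • u) = starRingEnd ℂ c * Ψ w u := by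
  rw [h2 _ w, psi_smul_left Ψ h1, map_mul, ← h2 u w]

/-- the inner product space of a positive definite Hermitian form -/
@[reducible] noncomputable def core (h1 : ∀ u', IsLinearMap ℂ fun u => Ψ u u')
    (h2 : ∀ u u', Ψ u' u = starRingEnd ℂ (Ψ u u')) (h3 : ∀ u, u ≠ 0 → 0 < (Ψ u u).re) :
    InnerProductSpace.Core ℂ T where
  inner x y := Ψ y x
  conj_inner_symm x y := (h2 x y).symm
  re_inner_nonneg x := by
    by_cases hx : x = 0
    · rw [hx, psi_zero_left Ψ h1]; simp
    · exact (h3 x hx).le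
  add_left x y z := by
    change Ψ z (x + y) = Ψ z x + Ψ z y
    rw [h2 (x + y) z, psi_add_left Ψ h1, map_add, ← h2, ← h2]
  smul_left x y r := by
    change Ψ y (r • x) = starRingEnd ℂ r * Ψ y x
    exact psi_smul_right Ψ h1 h2 r x y
  definite x hx := by
    by_contra hne
    have := h3 x hne
    change Ψ x x = 0 at hx
    rw [hx] at this
    simp at this

lemma exists_onb [FiniteDimensional ℂ T] (h1 : ∀ u', IsLinearMap ℂ fun u => Ψ u u')
    (h2 : ∀ u u', Ψ u' u = starRingEnd ℂ (Ψ u u')) (h3 : ∀ u, u ≠ 0 → 0 < (Ψ u u).re)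
    (V : Submodule ℂ T) : ∃ (k : ℕ) (v : Fin k → T), (∀ i, v i ∈ V) ∧
      (∀ i j, Ψ (v i) (v j) = if i = j then 1 else 0) ∧ V ≤ Submodule.span ℂ (Set.range v) := by
  let _ : NormedAddCommGroup T := @InnerProductSpace.Core.toNormedAddCommGroup ℂ T _ _ _
    (core Ψ h1 h2 h3)
  let _ : InnerProductSpace ℂ T := InnerProductSpace.ofCore (core Ψ h1 h2 h3).toCore
  have hin : ∀ x y : T, inner ℂ x y = Ψ y x := fun x y => rfl
  let b := stdOrthonormalBasis ℂ V
  refine ⟨_, fun i => (b i : T), fun i => (b i).2, fun i j => ?_, ?_⟩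
  · have := orthonormal_iff_ite.mp b.orthonormal j i
    rw [Submodule.coe_inner, hin] at this
    rw [this]
    by_cases h : i = j
    · rw [if_pos h, if_pos h.symm]
    · rw [if_neg h, if_neg (fun h' => h h'.symm)]
  · intro x hx
    have := b.toBasis.mem_span (⟨x, hx⟩ : V)
    have h4 := Submodule.mem_map_of_mem (f := V.subtype) this
    rw [Submodule.map_span] at h4
    refine Submodule.span_mono ?_ h4
    rintro _ ⟨_, ⟨i, rfl⟩, rfl⟩
    exact ⟨i, by simp⟩

end

section
variable {m : ℕ} {n : Fin m → ℕ}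

/-- matrix units -/
noncomputable def EE (j : Fin m) (α β : Fin (n j)) :
    (j : Fin m) → Matrix (Fin (n j)) (Fin (n j)) ℝ := Pi.single j (Matrix.single α β 1)

lemma EE_mul (j : Fin m) (α β γ δ : Fin (n j)) :
    EE j α β * EE j γ δ = if β = γ then EE (n := n) j α δ else 0 := by
  unfold EE
  rw [← Pi.single_mul]
  by_cases h : β = γ
  · rw [if_pos h, h, Matrix.single_mul_single_same, one_mul]
  · rw [if_neg h, Matrix.single_mul_single_of_ne _ _ _ _ h, Pi.single_zero]

lemma EE_mul_ne {j j' : Fin m} (h : j ≠ j') (α β : Fin (n j)) (γ δ : Fin (n j')) :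
    EE j α β * EE j' γ δ = (0 : (j : Fin m) → Matrix (Fin (n j)) (Fin (n j)) ℝ) := by
  unfold EE
  funext i
  rw [Pi.mul_apply, Pi.zero_apply]
  by_cases hi : i = j
  · subst hi
    rw [Pi.single_eq_of_ne h, mul_zero]
  · rw [Pi.single_eq_of_ne hi, zero_mul]

lemma EE_transpose (j : Fin m) (α β : Fin (n j)) :
    (fun i => (EE (n := n) j α β i).transpose) = EE j β α := by
  unfold EE
  funext i
  by_cases hi : i = j
  · subst hi
    rw [Pi.single_eq_same, Pi.single_eq_same, Matrix.transpose_single]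
  · rw [Pi.single_eq_of_ne hi, Pi.single_eq_of_ne hi, Matrix.transpose_zero]

lemma EE_one : (1 : (j : Fin m) → Matrix (Fin (n j)) (Fin (n j)) ℝ) = ∑ j, ∑ α, EE j α α := by
  funext i
  rw [Finset.sum_apply, Finset.sum_eq_single i]
  · rw [Finset.sum_apply]
    unfold EE
    simp only [Pi.single_eq_same]
    rw [Pi.one_apply, Matrix.sum_single_one]
  · intro j _ hj
    rw [Finset.sum_apply]
    exact Finset.sum_eq_zero fun α _ => by unfold EE; rw [Pi.single_eq_of_ne hj.symm]
  · intro h; exact absurd (Finset.mem_univ _) h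

/-- `aᵀ E_{α0} = ∑_β a(α,β) E_{β0}` -/
lemma transpose_mul_EE (a : (j : Fin m) → Matrix (Fin (n j)) (Fin (n j)) ℝ) (j : Fin m)
    (α z : Fin (n j)) : (fun i => (a i).transpose) * EE j α z = ∑ β, a j α β • EE j β z := by
  funext i
  rw [Pi.mul_apply, Finset.sum_apply]
  by_cases hi : i = j
  · subst hi
    ext x y
    rw [Matrix.sum_apply, EE, Pi.single_eq_same, Matrix.mul_apply]
    simp only [Pi.smul_apply, EE, Pi.single_eq_same, Matrix.smul_apply, Matrix.single_apply,
      Matrix.transpose_apply, smul_eq_mul]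
    simp only [mul_ite, mul_one, mul_zero]
    rw [Finset.sum_eq_single α, Finset.sum_eq_single x]
    · simp
    · intro b _ hb
      simp [hb]
    · intro h; exact absurd (Finset.mem_univ _) h
    · intro b _ hb
      rw [if_neg]
      exact fun h => hb h.1.symm
    · intro h; exact absurd (Finset.mem_univ _) h
  · rw [EE, Pi.single_eq_of_ne hi, mul_zero]
    symm
    exact Finset.sum_eq_zero fun β _ => by
      rw [Pi.smul_apply, EE, Pi.single_eq_of_ne hi, smul_zero]

end

theorem t_Q_BAS : Q_BAS := by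
  classical
  intro m n T _ _ _ Ψ h1 h2 h3 θ hθ
  have hθ' : ∀ (j : Fin m) (α β : Fin (n j)) (u u' : T),
      Ψ (θ (EE j α β) u) u' = Ψ u (θ (EE j β α) u') := by
    intro j α β u u'
    rw [hθ, EE_transpose]
  have hch : ∀ j : Fin m, ∃ (k : ℕ) (v : Fin k → T), ∀ z : Fin (n j), z.1 = 0 →
      (∀ i, θ (EE j z z) (v i) = v i) ∧ (∀ i i', Ψ (v i) (v i') = if i = i' then 1 else 0) ∧
      ∀ u, θ (EE j z z) u ∈ Submodule.span ℂ (Set.range v) := by
    intro j
    by_cases hj : 0 < n j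
    · obtain ⟨k, v, e1, e2, e3⟩ := exists_onb Ψ h1 h2 h3 (LinearMap.range (θ (EE j ⟨0, hj⟩ ⟨0, hj⟩)))
      refine ⟨k, v, fun z hz => ?_⟩
      have hz' : z = ⟨0, hj⟩ := Fin.ext hz
      subst hz'
      refine ⟨fun i => ?_, e2, fun u => e3 ⟨u, rfl⟩⟩
      obtain ⟨u, hu⟩ := e1 i
      rw [← hu, ← Module.End.mul_apply, ← map_mul, EE_mul, if_pos rfl]
    · exact ⟨0, Fin.elim0, fun z => absurd z.pos hj⟩
  choose k v hv using hch
  -- the zero index
  let z : ∀ j, Fin (n j) → Fin (n j) := fun j α => ⟨0, α.pos⟩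
  have hzz : ∀ j (α β : Fin (n j)), z j α = z j β := fun j α β => rfl
  let t' : (Σ j, Fin (k j) × Fin (n j)) → T := fun s => θ (EE s.1 s.2.2 (z s.1 s.2.2)) (v s.1 s.2.1)
  have hort : ∀ s s', Ψ (t' s) (t' s') = if s = s' then 1 else 0 := by
    rintro ⟨j, i, α⟩ ⟨j', i', α'⟩
    change Ψ (θ (EE j α (z j α)) (v j i)) (θ (EE j' α' (z j' α')) (v j' i')) = _
    rw [hθ', ← Module.End.mul_apply, ← map_mul]
    by_cases hj : j = j'
    · subst hj
      rw [EE_mul]
      by_cases hα : α = α'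
      · subst hα
        rw [if_pos rfl, (hv j (z j α) rfl).1, (hv j (z j α) rfl).2.1]
        by_cases hi : i = i'
        · subst hi; simp
        · rw [if_neg hi, if_neg]
          intro h
          apply hi
          simpa using h
      · rw [if_neg hα, map_zero, LinearMap.zero_apply, psi_zero_right Ψ h1 h2, if_neg]
        intro h
        apply hα
        have := h
        simp only [Sigma.mk.injEq, heq_eq_eq, Prod.mk.injEq, true_and] at this
        exact this.2
    · rw [EE_mul_ne hj, map_zero, LinearMap.zero_apply, psi_zero_right Ψ h1 h2, if_neg]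
      intro h
      exact hj (congrArg Sigma.fst h)
  have hli : LinearIndependent ℂ t' := by
    rw [Fintype.linearIndependent_iff]
    intro g hg s'
    have : Ψ (∑ s, g s • t' s) (t' s') = 0 := by rw [hg, psi_zero_left Ψ h1]
    rw [psi_sum_left Ψ h1] at this
    rw [Finset.sum_eq_single s'] at this
    · rw [psi_smul_left Ψ h1, hort, if_pos rfl, mul_one] at this
      exact this
    · intro s _ hs
      rw [psi_smul_left Ψ h1, hort, if_neg hs, mul_zero]
    · intro h; exact absurd (Finset.mem_univ _) h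
  have hsp : ⊤ ≤ Submodule.span ℂ (Set.range t') := by
    intro u _
    have hu : u = ∑ j, ∑ α, θ (EE j α (z j α)) (θ (EE j (z j α) α) u) := by
      have e1 : ∀ j (α : Fin (n j)), θ (EE j α (z j α)) (θ (EE j (z j α) α) u) =
          θ (EE j α α) u := by
        intro j α
        rw [← Module.End.mul_apply, ← map_mul, EE_mul, if_pos rfl]
      simp only [e1]
      have e2 : θ 1 u = u := by rw [map_one]; rfl
      conv_lhs => rw [← e2, EE_one, map_sum]
      rw [LinearMap.sum_apply]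
      refine Finset.sum_congr rfl fun j _ => ?_
      rw [map_sum, LinearMap.sum_apply]
    rw [hu]
    refine Submodule.sum_mem _ fun j _ => Submodule.sum_mem _ fun α _ => ?_
    have e3 : θ (EE j (z j α) α) u = θ (EE j (z j α) (z j α)) (θ (EE j (z j α) α) u) := by
      rw [← Module.End.mul_apply, ← map_mul, EE_mul, if_pos rfl]
    have e4 : θ (EE j (z j α) α) u ∈ Submodule.span ℂ (Set.range (v j)) := by
      rw [e3]
      exact (hv j (z j α) rfl).2.2 _
    have e5 := Submodule.mem_map_of_mem (f := θ (EE j α (z j α))) e4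
    rw [Submodule.map_span] at e5
    refine Submodule.span_mono ?_ e5
    rintro _ ⟨_, ⟨i, rfl⟩, rfl⟩
    exact ⟨⟨j, i, α⟩, rfl⟩
  let t : Basis (Σ j, Fin (k j) × Fin (n j)) ℂ T := Basis.mk hli hsp
  have ht : ∀ s, t s = t' s := fun s => Basis.mk_apply hli hsp s
  have hrep : ∀ u s', t.repr u s' = Ψ u (t' s') := by
    intro u s'
    conv_rhs => rw [← t.sum_repr u]
    rw [psi_sum_left Ψ h1, Finset.sum_eq_single s']
    · rw [psi_smul_left Ψ h1, ht, hort, if_pos rfl, mul_one]
    · intro s _ hs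
      rw [psi_smul_left Ψ h1, ht, hort, if_neg hs, mul_zero]
    · intro h; exact absurd (Finset.mem_univ _) h
  refine ⟨fun j => Fin (k j), fun j => inferInstance, t, ?_, ?_⟩
  · intro u u'
    conv_lhs => rw [← t.sum_repr u]
    rw [psi_sum_left Ψ h1]
    refine Finset.sum_congr rfl fun s _ => ?_
    rw [psi_smul_left Ψ h1, ht, hrep u' s, h2 u' (t' s)]
  · intro a u j i α
    rw [hrep]
    change Ψ (θ a u) (θ (EE j α (z j α)) (v j i)) = _
    rw [hθ, ← Module.End.mul_apply, ← map_mul, transpose_mul_EE, map_sum, LinearMap.sum_apply,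
      psi_sum_right Ψ h1 h2]
    refine Finset.sum_congr rfl fun β _ => ?_
    rw [map_smul, LinearMap.smul_apply, hrep]
    have : a j α β • θ (EE j β (z j α)) (v j i) = ((a j α β : ℝ) : ℂ) • t' ⟨j, i, β⟩ := by
      rw [Complex.coe_smul]
    rw [this, psi_smul_right Ψ h1 h2, Complex.conj_ofReal]

end Pool.Agent.T2h69.Q15
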