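import Pool.Agent.Z15.Q.Stm

set_option autoImplicit false

namespace Pool.Agent.T2h69.Q15

open Module TensorProduct Pool.Agent.Z15.Q Pool.Agent.Y90 Pool.Agent.W546.GHC
  Pool.Agent.H204R3.CM

section
variable {J : Type} {K A : J → Type}

lemma cnt_comp {i : ℕ} (b : Fin i → Co K A) (σ : Equiv.Perm (Fin i)) : cnt (b ∘ σ) = cnt b := by
  unfold cnt
  apply Finset.card_bij (fun m _ => σ m)
  · intro m hm
    rw [Finset.mem_filter] at hm ⊢
    exact ⟨Finset.mem_univ _, hm.2⟩
  · intro m _ m' _ h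
    exact σ.injective h
  · intro m hm
    rw [Finset.mem_filter] at hm
    refine ⟨σ.symm m, ?_, σ.apply_symm_apply m⟩
    rw [Finset.mem_filter]
    refine ⟨Finset.mem_univ _, ?_⟩
    rw [Function.comp_apply, σ.apply_symm_apply]
    exact hm.2

lemma cnt_le {i : ℕ} (b : Fin i → Co K A) : cnt b ≤ i := by
  unfold cnt
  refine (Finset.card_filter_le _ _).trans ?_
  simp

lemma anti_part {i : ℕ} (q : ℕ) {a : Arr K A i} (ha : Anti a) : Anti (part q a) := by
  intro σ b
  unfold part
  rw [cnt_comp]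
  split_ifs
  · exact ha σ b
  · rw [mul_zero]

lemma sum_part {i : ℕ} (c : ℕ) (a : Arr K A i) (ha : ∀ b, c ≤ cnt b → a b = 0) :
    a = ∑ q ∈ Finset.range c, part q a := by
  funext b
  rw [Finset.sum_apply]
  unfold part
  by_cases h : cnt b < c
  · rw [Finset.sum_eq_single (cnt b)]
    · rw [if_pos rfl]
    · intro q _ hq
      rw [if_neg (fun h' => hq h'.symm)]
    · intro h'
      exact absurd (Finset.mem_range.mpr h) h'
  · rw [ha b (by omega)]
    symm
    exact Finset.sum_eq_zero fun q _ => by split_ifs <;> rfl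

lemma pb_sum [∀ j, Fintype (A j)] {i : ℕ} (M : ∀ j, Matrix (A j) (A j) ℝ) {κ : Type}
    (s : Finset κ) (a : κ → Arr K A i) : pb M (∑ q ∈ s, a q) = ∑ q ∈ s, pb M (a q) := by
  funext b
  rw [Finset.sum_apply]
  unfold pb
  simp only [Finset.sum_apply, Finset.mul_sum]
  rw [Finset.sum_comm]

lemma pb_zero [∀ j, Fintype (A j)] {i : ℕ} (M : ∀ j, Matrix (A j) (A j) ℝ) :
    pb M (0 : Arr K A i) = 0 := by
  funext b
  unfold pb
  exact Finset.sum_eq_zero fun γ _ => by rw [Pi.zero_apply, mul_zero]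

end

lemma alt_sum_apply {S M N κ ι : Type} [CommSemiring S] [AddCommMonoid M] [Module S M]
    [AddCommMonoid N] [Module S N] (s : Finset ι) (f : ι → M [⋀^κ]→ₗ[S] N) (v : κ → M) :
    (∑ l ∈ s, f l) v = ∑ l ∈ s, f l v := by
  classical
  induction s using Finset.induction_on with
  | empty => rw [Finset.sum_empty, Finset.sum_empty]; rfl
  | insert a s ha ih => rw [Finset.sum_insert ha, Finset.sum_insert ha, AlternatingMap.add_apply, ih]

section
variable {J : Type} {K A : J → Type} [Fintype J] [∀ j, Fintype (K j)] [∀ j, Fintype (A j)]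
  {T : Type} [AddCommGroup T] [Module ℂ T] (t : Basis (Σ j, K j × A j) ℂ T) {i : ℕ}

lemma isArr_zero : IsArr t (0 : T [⋀^Fin i]→ₗ[ℝ] ℂ) 0 := by
  refine ⟨fun σ b => by rw [Pi.zero_apply, Pi.zero_apply, mul_zero], fun v => ?_⟩
  rw [AlternatingMap.zero_apply]
  symm
  exact Finset.sum_eq_zero fun b _ => by rw [Pi.zero_apply, zero_mul]

lemma isArr_sum {ι : Type} (s : Finset ι) (x : ι → ℂ) (φ : ι → T [⋀^Fin i]→ₗ[ℝ] ℂ)
    (a : ι → Arr K A i) (h : ∀ l ∈ s, IsArr t (φ l) (a l)) :
    IsArr t (∑ l ∈ s, x l • φ l) (∑ l ∈ s, x l • a l) := by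
  constructor
  · intro σ b
    rw [Finset.sum_apply, Finset.sum_apply, Finset.mul_sum]
    refine Finset.sum_congr rfl fun l hl => ?_
    rw [Pi.smul_apply, Pi.smul_apply, (h l hl).1 σ b, smul_eq_mul, smul_eq_mul]
    ring
  · intro v
    rw [alt_sum_apply]
    simp only [AlternatingMap.smul_apply, Finset.sum_apply, Pi.smul_apply, smul_eq_mul,
      Finset.sum_mul]
    rw [Finset.sum_comm]
    refine Finset.sum_congr rfl fun l hl => ?_
    rw [(h l hl).2 v, Finset.mul_sum]
    exact Finset.sum_congr rfl fun b _ => by ring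

end

theorem t_Q_MAINi : Q_MAINi := by
  classical
  intro hAM hFORM hPULL hADP hEXT hSPAN X E R hRT i c ι _ x r ρ hr hρ hkill f
  obtain ⟨J, K, A, _, _, _, t, mat, hAd⟩ := hADP X E R hRT
  obtain ⟨ex1, -, -, ex4⟩ := hEXT X i
  obtain ⟨fo1, fo2, fo3⟩ := hFORM J K A X.T t i
  obtain ⟨φ, hφ⟩ := ex1 f
  obtain ⟨a, ha⟩ := fo1 φ
  let M : ι → ∀ j, Matrix (A j) (A j) ℝ := fun l => mat ⟨r l, hr l⟩
  have hrep : ∀ (l : ι) (u : X.T) (j : J) (k : K j) (α : A j), t.repr (ρ l u) ⟨j, k, α⟩ =
      ∑ β : A j, ((M l j α β : ℝ) : ℂ) * t.repr u ⟨j, k, β⟩ := by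
    intro l u j k α
    have hu : u ∈ Submodule.span ℝ (Set.range X.per) := by rw [X.span]; trivial
    induction hu using Submodule.span_induction with
    | mem x hx =>
      obtain ⟨v, rfl⟩ := hx
      rw [hρ]
      exact hAd.act ⟨r l, hr l⟩ v j k α
    | zero => simp
    | add x y _ _ hx hy =>
      rw [map_add, map_add, Finsupp.add_apply, hx, hy, ← Finset.sum_add_distrib]
      refine Finset.sum_congr rfl fun β _ => ?_
      rw [map_add, Finsupp.add_apply, mul_add]
    | smul c x _ hx =>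
      rw [← Complex.coe_smul, map_smul, map_smul, Finsupp.smul_apply, hx, Finset.smul_sum]
      refine Finset.sum_congr rfl fun β _ => ?_
      rw [map_smul, Finsupp.smul_apply, smul_eq_mul, smul_eq_mul]
      ring
  have hpull : ∀ (φ : X.T [⋀^Fin i]→ₗ[ℝ] ℂ) (a : Arr K A i), IsArr t φ a →
      IsArr t (∑ l, (x l : ℂ) • φ.compLinearMap ((ρ l).restrictScalars ℝ))
        (eop (fun l => (x l : ℝ)) M a) := by
    intro φ a ha
    have := isArr_sum t Finset.univ (fun l => (x l : ℂ))
      (fun l => φ.compLinearMap ((ρ l).restrictScalars ℝ)) (fun l => pb (M l) a)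
      (fun l _ => (hPULL J K A X.T t i φ a ha).2 (ρ l) (M l) (hrep l))
    have e : eop (fun l => (x l : ℝ)) M a = ∑ l, (x l : ℂ) • pb (M l) a := by
      unfold eop
      exact Finset.sum_congr rfl fun l _ => by norm_cast
    rw [e]
    exact this
  have hk : ∀ a' : Arr K A i, Anti a' → (∀ b, c ≤ cnt b → a' b = 0) →
      eop (fun l => (x l : ℝ)) M a' = 0 := by
    intro a' ha' hb
    have hq : ∀ q < c, eop (fun l => (x l : ℝ)) M (part q a') = 0 := by
      intro q hqc
      by_cases hqi : q ≤ i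
      · obtain ⟨φ', hφ'⟩ := fo3 (part q a') (anti_part q ha')
        have h1 := (hPULL J K A X.T t i φ' _ hφ').1 q hqi (fun b hb => by
          unfold part
          rw [if_neg hb])
        have h2 := hkill q hqc φ' h1
        have h3 := hpull φ' _ hφ'
        rw [h2] at h3
        exact fo2 0 _ 0 h3 (isArr_zero t)
      · have : part q a' = 0 := by
          funext b
          unfold part
          rw [if_neg (by have := cnt_le b; omega)]
          rfl
        rw [this]
        unfold eop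
        exact Finset.sum_eq_zero fun l _ => by rw [pb_zero, smul_zero]
    rw [sum_part c a' hb]
    have : eop (fun l => (x l : ℝ)) M (∑ q ∈ Finset.range c, part q a') =
        ∑ q ∈ Finset.range c, eop (fun l => (x l : ℝ)) M (part q a') := by
      unfold eop
      rw [Finset.sum_comm]
      refine Finset.sum_congr rfl fun l _ => ?_
      rw [pb_sum, Finset.smul_sum]
    rw [this]
    exact Finset.sum_eq_zero fun q hq' => hq q (Finset.mem_range.mp hq')
  have hgen := hAM J K A i c ι (fun l => (x l : ℝ)) M hk a ha.1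
  have hmem := hSPAN X E R hRT J K A t mat hAd c i _ hgen _ (hpull φ a ha)
  refine ex4 _ _ _ ?_ hmem
  intro w
  rw [alt_sum_apply, alt_sum_apply]
  push_cast
  refine Finset.sum_congr rfl fun l _ => ?_
  rw [AlternatingMap.smul_apply, AlternatingMap.compLinearMap_apply, AlternatingMap.smul_apply,
    AlternatingMap.compLinearMap_apply, smul_eq_mul, smul_eq_mul]
  push_cast
  congr 1
  have := hφ (fun m => r l (w m))
  rw [← this]
  congr 1
  funext m
  exact hρ l (w m)

end Pool.Agent.T2h69.Q15
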